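import Mathlib

open MeasureTheory Filter Topology Set

namespace Pool.Agent.Helper97

section Birkhoff

variable {α : Type*} [MeasurableSpace α] {μ : Measure α} [IsProbabilityMeasure μ]

/-- running maxima of the Birkhoff sums -/
noncomputable def MM (T : α → α) (f : α → ℝ) : ℕ → α → ℝ
  | 0, _ => 0
  | n + 1, x => max 0 (f x + MM T f n (T x))

lemma MM_nonneg (T : α → α) (f : α → ℝ) (n : ℕ) (x : α) : 0 ≤ MM T f n x := by
  cases n with
  | zero => simp [MM]
  | succ n => exact le_max_left _ _

lemma MM_mono_succ (T : α → α) (f : α → ℝ) (n : ℕ) (x : α) : MM T f n x ≤ MM T f (n + 1) x := by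
  induction n generalizing x with
  | zero => exact MM_nonneg T f 1 x
  | succ n ih =>
    show max 0 (f x + MM T f n (T x)) ≤ max 0 (f x + MM T f (n + 1) (T x))
    exact max_le_max le_rfl (by linarith [ih (T x)])

lemma MM_mono (T : α → α) (f : α → ℝ) (x : α) : Monotone (fun n => MM T f n x) :=
  monotone_nat_of_le_succ fun n => MM_mono_succ T f n x

lemma birkhoffSum_le_MM (T : α → α) (f : α → ℝ) (n : ℕ) (x : α) :
    birkhoffSum T f n x ≤ MM T f n x := by
  induction n generalizing x with
  | zero => simp [MM]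
  | succ n ih =>
    rw [birkhoffSum_succ']
    show _ ≤ max 0 (f x + MM T f n (T x))
    exact (by linarith [ih (T x)] : f x + birkhoffSum T f n (T x) ≤ f x + MM T f n (T x)).trans
      (le_max_right _ _)

lemma MM_measurable {T : α → α} (hT : Measurable T) {f : α → ℝ} (hf : Measurable f) (n : ℕ) :
    Measurable (MM T f n) := by
  induction n with
  | zero => exact measurable_const
  | succ n ih =>
    show Measurable fun x => max 0 (f x + MM T f n (T x))
    exact measurable_const.max (hf.add (ih.comp hT))

lemma MM_integrable {T : α → α} (hT : MeasurePreserving T μ μ) {f : α → ℝ} (hfm : Measurable f)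
    (hf : Integrable f μ) (n : ℕ) : Integrable (MM T f n) μ := by
  induction n with
  | zero => exact integrable_zero _ _ _
  | succ n ih =>
    have h1 : Integrable (fun x => f x + MM T f n (T x)) μ :=
      hf.add (hT.integrable_comp_of_integrable ih)
    refine Integrable.mono' h1.abs (MM_measurable hT.measurable hfm (n + 1)).aestronglyMeasurable
      (ae_of_all _ fun x => ?_)
    show |max 0 (f x + MM T f n (T x))| ≤ |f x + MM T f n (T x)|
    rcases le_total 0 (f x + MM T f n (T x)) with h | h
    · rw [max_eq_right h]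
    · rw [max_eq_left h]; simp

/-- invariant sets are trivial -/
def TrivInv (T : α → α) (μ : Measure α) : Prop :=
  ∀ A : Set α, MeasurableSet A → T ⁻¹' A = A → μ A = 0 ∨ μ Aᶜ = 0

lemma bddAbove_of_neg {T : α → α} (hT : MeasurePreserving T μ μ) (herg : TrivInv T μ)
    {f : α → ℝ} (hfm : Measurable f) (hf : Integrable f μ) (hneg : ∫ x, f x ∂μ < 0) :
    ∀ᵐ x ∂μ, BddAbove (Set.range fun n => birkhoffSum T f n x) := by
  set A : Set α := {x | ¬ BddAbove (Set.range fun n => MM T f n x)} with hA
  have hAm : MeasurableSet A := by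
    have : A = (⋃ B : ℕ, ⋂ n : ℕ, {x | MM T f n x ≤ B})ᶜ := by
      ext x
      simp only [hA, mem_setOf_eq, mem_compl_iff, mem_iUnion, mem_iInter]
      apply not_congr
      constructor
      · rintro ⟨B, hB⟩
        obtain ⟨N, hN⟩ := exists_nat_ge B
        exact ⟨N, fun n => (hB ⟨n, rfl⟩).trans hN⟩
      · rintro ⟨B, hB⟩
        exact ⟨B, by rintro _ ⟨n, rfl⟩; exact hB n⟩
    rw [this]
    exact (MeasurableSet.iUnion fun B => MeasurableSet.iInter fun n =>
      measurableSet_le (MM_measurable hT.measurable hfm n) measurable_const).compl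
  have hinv : T ⁻¹' A = A := by
    ext x
    simp only [hA, mem_preimage, mem_setOf_eq]
    apply not_congr
    constructor
    · rintro ⟨B, hB⟩
      refine ⟨max 0 (f x + B), ?_⟩
      rintro _ ⟨n, rfl⟩
      cases n with
      | zero => exact le_max_left _ _
      | succ n =>
        show max 0 (f x + MM T f n (T x)) ≤ _
        exact max_le_max le_rfl (by linarith [hB ⟨n, rfl⟩])
    · rintro ⟨B, hB⟩
      refine ⟨B - f x, ?_⟩
      rintro _ ⟨n, rfl⟩
      have h1 : MM T f (n + 1) x ≤ B := hB ⟨n + 1, rfl⟩
      have h2 : f x + MM T f n (T x) ≤ MM T f (n + 1) x := le_max_right _ _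
      simp only
      linarith
  have hI : 0 ≤ ∫ x in A, f x ∂μ := by
    have hD : ∀ n, 0 ≤ ∫ x in A, (MM T f (n + 1) x - MM T f n (T x)) ∂μ := by
      intro n
      have i1 : Integrable (MM T f (n + 1)) (μ.restrict A) :=
        (MM_integrable hT hfm hf (n + 1)).restrict
      have i2 : Integrable (fun x => MM T f n (T x)) (μ.restrict A) :=
        (hT.integrable_comp_of_integrable (MM_integrable hT hfm hf n)).restrict
      rw [integral_sub i1 i2]
      have h1 : ∫ x in A, MM T f n (T x) ∂μ = ∫ x in A, MM T f n x ∂μ := by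
        conv_lhs => rw [← hinv]
        have hmp : MeasurePreserving T (μ.restrict (T ⁻¹' A)) (μ.restrict A) :=
          hT.restrict_preimage hAm
        rw [← hmp.map_eq]
        rw [integral_map hT.measurable.aemeasurable]
        exact (MM_measurable hT.measurable hfm n).aestronglyMeasurable
      rw [h1, ← integral_sub i1 (MM_integrable hT hfm hf n).restrict]
      exact integral_nonneg fun x => by
        have := MM_mono_succ T f n x
        simp only [Pi.zero_apply]; linarith
    have hlim : Tendsto (fun n => ∫ x in A, (MM T f (n + 1) x - MM T f n (T x)) ∂μ) atTop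
        (𝓝 (∫ x in A, f x ∂μ)) := by
      refine tendsto_integral_of_dominated_convergence (fun x => |f x|) (fun n => ?_)
        hf.abs.restrict (fun n => ae_of_all _ fun x => ?_) ?_
      · exact ((MM_measurable hT.measurable hfm (n + 1)).sub
          ((MM_measurable hT.measurable hfm n).comp hT.measurable)).aestronglyMeasurable
      · show |max 0 (f x + MM T f n (T x)) - MM T f n (T x)| ≤ |f x|
        have h0 := MM_nonneg T f n (T x)
        rcases le_total 0 (f x + MM T f n (T x)) with h | h
        · rw [max_eq_right h]; simp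
        · rw [max_eq_left h]
          rw [zero_sub, abs_neg, abs_of_nonneg h0]
          rw [abs_of_nonpos (by linarith)]
          linarith
      · rw [ae_restrict_iff' hAm]
        refine ae_of_all _ fun x hx => ?_
        have hTx : T x ∈ A := by
          have : x ∈ T ⁻¹' A := by rw [hinv]; exact hx
          exact this
        have hinf : Tendsto (fun n => MM T f n (T x)) atTop atTop := by
          refine tendsto_atTop_atTop_of_monotone (MM_mono T f (T x)) fun b => ?_
          by_contra hcon
          push Not at hcon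
          exact hTx ⟨b, by rintro _ ⟨n, rfl⟩; exact (hcon n).le⟩
        refine tendsto_const_nhds.congr' ?_
        filter_upwards [hinf.eventually_ge_atTop (-f x)] with n hn
        show f x = max 0 (f x + MM T f n (T x)) - MM T f n (T x)
        rw [max_eq_right (by linarith)]
        ring
    exact ge_of_tendsto' hlim hD
  have hA0 : μ A = 0 := by
    rcases herg A hAm hinv with h | h
    · exact h
    · exfalso
      have h1 : ∫ x in A, f x ∂μ = ∫ x, f x ∂μ := by
        rw [← integral_add_compl hAm hf]
        rw [setIntegral_measure_zero _ h]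
        simp
      linarith
  have : ∀ᵐ x ∂μ, x ∉ A := measure_eq_zero_iff_ae_notMem.1 hA0
  filter_upwards [this] with x hx
  simp only [hA, mem_setOf_eq, not_not] at hx
  obtain ⟨B, hB⟩ := hx
  refine ⟨B, ?_⟩
  rintro _ ⟨n, rfl⟩
  exact (birkhoffSum_le_MM T f n x).trans (hB ⟨n, rfl⟩)

lemma limsup_le_aux {T : α → α} (hT : MeasurePreserving T μ μ) (herg : TrivInv T μ)
    {f : α → ℝ} (hfm : Measurable f) (hf : Integrable f μ) :
    ∀ᵐ x ∂μ, ∀ a : ℝ, ∫ x, f x ∂μ < a →
      ∀ᶠ n : ℕ in atTop, (n : ℝ)⁻¹ * birkhoffSum T f n x < a := by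
  have key : ∀ k : ℕ, ∀ᵐ x ∂μ, BddAbove (Set.range fun n =>
      birkhoffSum T (fun x => f x - (∫ x, f x ∂μ + 1 / ((k : ℝ) + 1))) n x) := by
    intro k
    refine bddAbove_of_neg hT herg (hfm.sub_const _) (hf.sub (integrable_const _)) ?_
    rw [integral_sub hf (integrable_const _)]
    simp
    positivity
  filter_upwards [ae_all_iff.2 key] with x hx a ha
  obtain ⟨k, hk⟩ := exists_nat_one_div_lt (sub_pos.2 ha)
  obtain ⟨B, hB⟩ := hx k
  have hsum : ∀ n : ℕ, birkhoffSum T (fun x => f x - (∫ x, f x ∂μ + 1 / ((k : ℝ) + 1))) n x =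
      birkhoffSum T f n x - n * (∫ x, f x ∂μ + 1 / ((k : ℝ) + 1)) := by
    intro n
    simp [birkhoffSum, Finset.sum_sub_distrib]
    ring
  have hlim : Tendsto (fun n : ℕ => B / n + (∫ x, f x ∂μ + 1 / ((k : ℝ) + 1))) atTop
      (𝓝 (0 + (∫ x, f x ∂μ + 1 / ((k : ℝ) + 1)))) :=
    (tendsto_const_nhds.div_atTop tendsto_natCast_atTop_atTop).add tendsto_const_nhds
  rw [zero_add] at hlim
  have hlt : ∫ x, f x ∂μ + 1 / ((k : ℝ) + 1) < a := by linarith
  filter_upwards [(tendsto_order.1 hlim).2 a hlt, eventually_gt_atTop 0] with n h1 h2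
  refine lt_of_le_of_lt ?_ h1
  have hn : (0 : ℝ) < n := by exact_mod_cast h2
  have h3 := hB ⟨n, rfl⟩
  simp only at h3
  rw [hsum] at h3
  rw [inv_mul_eq_div, div_le_iff₀ hn]
  have : (B / n + (∫ x, f x ∂μ + 1 / ((k : ℝ) + 1))) * n =
      B + n * (∫ x, f x ∂μ + 1 / ((k : ℝ) + 1)) := by
    rw [add_mul, div_mul_cancel₀ _ hn.ne']; ring
  rw [this]
  linarith

/-- Birkhoff's ergodic theorem for ergodic transformations. -/
theorem birkhoff_ae {T : α → α} (hT : MeasurePreserving T μ μ) (herg : TrivInv T μ)
    {f : α → ℝ} (hfm : Measurable f) (hf : Integrable f μ) :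
    ∀ᵐ x ∂μ, Tendsto (fun n : ℕ => (n : ℝ)⁻¹ * birkhoffSum T f n x) atTop
      (𝓝 (∫ x, f x ∂μ)) := by
  have h1 := limsup_le_aux hT herg hfm hf
  have h2 := limsup_le_aux hT herg hfm.neg hf.neg
  filter_upwards [h1, h2] with x hx1 hx2
  rw [tendsto_order]
  constructor
  · intro a ha
    have h3 := hx2 (-a) (by
      simp only [Pi.neg_apply]
      rw [integral_neg]; linarith)
    filter_upwards [h3] with n hn
    have : birkhoffSum T (-f) n x = - birkhoffSum T f n x := by
      simp [birkhoffSum]
    rw [this] at hn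
    linarith
  · intro a ha
    exact hx1 a ha

end Birkhoff

end Pool.Agent.Helper97
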