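import Mathlib

open MeasureTheory ProbabilityTheory Filter Topology Set

namespace Pool.Agent.Helper97

section Merge

variable {X : Type*} [MeasurableSpace X]

/-- The shifted sequence. -/
def shift (n : ℕ) (ω : ℕ → X) : ℕ → X := fun i => ω (n + i)

/-- Concatenation of the first `n` entries of one sequence with another sequence. -/
def merge (n : ℕ) (p : (ℕ → X) × (ℕ → X)) : ℕ → X := fun i => if i < n then p.1 i else p.2 (i - n)

@[fun_prop]
lemma measurable_shift (n : ℕ) : Measurable (shift n : (ℕ → X) → (ℕ → X)) := by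
  unfold shift; fun_prop

@[fun_prop]
lemma measurable_merge (n : ℕ) : Measurable (merge n : (ℕ → X) × (ℕ → X) → (ℕ → X)) := by
  unfold merge
  refine measurable_pi_lambda _ fun i => ?_
  by_cases hi : i < n
  · simp only [hi, if_true]; fun_prop
  · simp only [hi, if_false]; fun_prop

lemma shift_merge (n : ℕ) (p : (ℕ → X) × (ℕ → X)) : shift n (merge n p) = p.2 := by
  funext i; simp [shift, merge]

lemma merge_apply_lt {n i : ℕ} (h : i < n) (p : (ℕ → X) × (ℕ → X)) : merge n p i = p.1 i := by
  simp [merge, h]

lemma map_merge (ν : Measure X) [IsProbabilityMeasure ν] (n : ℕ) :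
    Measure.map (merge n) ((Measure.infinitePi (fun _ : ℕ => ν)).prod
      (Measure.infinitePi (fun _ : ℕ => ν))) = Measure.infinitePi (fun _ : ℕ => ν) := by
  classical
  apply Measure.eq_infinitePi
  intro s t ht
  rw [Measure.map_apply (measurable_merge n) (.pi s.countable_toSet (fun i _ => ht i))]
  have hpre : merge n ⁻¹' (Set.pi s t) =
      (Set.pi (↑(s.filter (fun i => i < n))) t) ×ˢ
      (Set.pi (↑((s.filter (fun i => ¬ i < n)).image (fun i => i - n))) (fun j => t (j + n))) := by
    ext p
    simp only [mem_preimage, Set.mem_pi, Finset.mem_coe, mem_prod, Finset.mem_filter,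
      Finset.mem_image, merge]
    constructor
    · intro H
      refine ⟨fun i hi => ?_, ?_⟩
      · have := H i hi.1
        rwa [if_pos hi.2] at this
      · rintro j ⟨i, ⟨hi, hin⟩, rfl⟩
        have := H i hi
        rw [if_neg hin] at this
        have e : i - n + n = i := by omega
        rw [e]; exact this
    · rintro ⟨H1, H2⟩ i hi
      by_cases hin : i < n
      · rw [if_pos hin]; exact H1 i ⟨hi, hin⟩
      · rw [if_neg hin]
        have := H2 (i - n) ⟨i, ⟨hi, hin⟩, rfl⟩
        have e : i - n + n = i := by omega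
        rwa [e] at this
  rw [hpre, Measure.prod_prod, Measure.infinitePi_pi _ (fun i _ => ht i),
    Measure.infinitePi_pi _ (fun i _ => ht _), Finset.prod_image]
  · rw [← Finset.prod_filter_mul_prod_filter_not s (fun i => i < n)]
    congr 1
    apply Finset.prod_congr rfl
    intro i hi
    have : ¬ i < n := (Finset.mem_filter.1 hi).2
    have e : i - n + n = i := by omega
    rw [e]
  · intro i hi j hj hij
    have h1 : ¬ i < n := (Finset.mem_filter.1 (Finset.mem_coe.1 hi)).2
    have h2 : ¬ j < n := (Finset.mem_filter.1 (Finset.mem_coe.1 hj)).2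
    simp only at hij
    omega

lemma measurePreserving_merge (ν : Measure X) [IsProbabilityMeasure ν] (n : ℕ) :
    MeasurePreserving (merge n) ((Measure.infinitePi (fun _ : ℕ => ν)).prod
      (Measure.infinitePi (fun _ : ℕ => ν))) (Measure.infinitePi (fun _ : ℕ => ν)) :=
  ⟨measurable_merge n, map_merge ν n⟩

lemma measurePreserving_shift (ν : Measure X) [IsProbabilityMeasure ν] (n : ℕ) :
    MeasurePreserving (shift n) (Measure.infinitePi (fun _ : ℕ => ν))
      (Measure.infinitePi (fun _ : ℕ => ν)) := by
  refine ⟨measurable_shift n, ?_⟩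
  conv_lhs => rw [← map_merge ν n]
  rw [Measure.map_map (measurable_shift n) (measurable_merge n)]
  have : (shift n ∘ merge n : (ℕ → X) × (ℕ → X) → (ℕ → X)) = Prod.snd := by
    funext p; exact shift_merge n p
  rw [this]
  simp

/-- `F` depends only on the first `n` coordinates. -/
def DepLT (n : ℕ) {β : Type*} (F : (ℕ → X) → β) : Prop :=
  ∀ ω ω' : ℕ → X, (∀ i, i < n → ω i = ω' i) → F ω = F ω'

lemma integral_mul_shift (ν : Measure X) [IsProbabilityMeasure ν] (n : ℕ)
    (F G : (ℕ → X) → ℝ) (hF : DepLT n F) (hFm : Measurable F) (hGm : Measurable G) :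
    ∫ ω, F ω * G (shift n ω) ∂(Measure.infinitePi (fun _ : ℕ => ν)) =
      (∫ ω, F ω ∂(Measure.infinitePi (fun _ : ℕ => ν))) *
      (∫ ω, G ω ∂(Measure.infinitePi (fun _ : ℕ => ν))) := by
  conv_lhs => rw [← map_merge ν n]
  rw [integral_map (measurable_merge n).aemeasurable
    (by apply Measurable.aestronglyMeasurable; fun_prop)]
  have : ∀ p : (ℕ → X) × (ℕ → X), F (merge n p) * G (shift n (merge n p)) = F p.1 * G p.2 := by
    intro p
    rw [shift_merge, hF (merge n p) p.1 (fun i hi => merge_apply_lt hi p)]
  simp_rw [this]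
  exact integral_prod_mul F G

lemma integral_shift (ν : Measure X) [IsProbabilityMeasure ν] (n : ℕ)
    (G : (ℕ → X) → ℝ) (hGm : Measurable G) :
    ∫ ω, G (shift n ω) ∂(Measure.infinitePi (fun _ : ℕ => ν)) =
      (∫ ω, G ω ∂(Measure.infinitePi (fun _ : ℕ => ν))) := by
  have := (measurePreserving_shift ν n).map_eq
  conv_rhs => rw [← this]
  rw [integral_map (measurable_shift n).aemeasurable hGm.aestronglyMeasurable]

lemma integrable_shift (ν : Measure X) [IsProbabilityMeasure ν] (n : ℕ)
    (G : (ℕ → X) → ℝ) (hG : Integrable G (Measure.infinitePi (fun _ : ℕ => ν))) :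
    Integrable (fun ω => G (shift n ω)) (Measure.infinitePi (fun _ : ℕ => ν)) :=
  (measurePreserving_shift ν n).integrable_comp_of_integrable hG

lemma integrable_mul_shift (ν : Measure X) [IsProbabilityMeasure ν] (n : ℕ)
    (F G : (ℕ → X) → ℝ) (hF : DepLT n F) (hFm : Measurable F) (hGm : Measurable G)
    (hFi : Integrable F (Measure.infinitePi (fun _ : ℕ => ν)))
    (hGi : Integrable G (Measure.infinitePi (fun _ : ℕ => ν))) :
    Integrable (fun ω => F ω * G (shift n ω)) (Measure.infinitePi (fun _ : ℕ => ν)) := by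
  have h1 : Integrable (fun p : (ℕ → X) × (ℕ → X) => F p.1 * G p.2)
    ((Measure.infinitePi (fun _ : ℕ => ν)).prod (Measure.infinitePi (fun _ : ℕ => ν))) :=
    hFi.mul_prod hGi
  have h2 : (fun p : (ℕ → X) × (ℕ → X) => F p.1 * G p.2) =
      (fun ω => F ω * G (shift n ω)) ∘ merge n := by
    funext p
    simp only [Function.comp]
    rw [shift_merge, hF (merge n p) p.1 (fun i hi => merge_apply_lt hi p)]
  rw [h2] at h1
  exact ((measurePreserving_merge ν n).integrable_comp
    (by apply Measurable.aestronglyMeasurable; fun_prop)).1 h1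

end Merge

end Pool.Agent.Helper97
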